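import Pool.Agent.V8H5.QS.Main

set_option autoImplicit false

/-! # Every quasi-symmetric 3-design with smaller intersection number 1 is the Witt design or its
residual (the complete design of the 3-subsets of 5 points being the only other one) -/

namespace Pool.Agent.Results.MP_096921_co.Classification

open Finset Pool.Agent.V8H5.QS

/-- There is a `4-(23,7,1)` design. Let `W` be any such design. Every `3-(v,k,lam)` design `𝓑`
with `3 ≤ k < v` and with exactly the two intersection numbers `1 < y` is isomorphic to `W`, or
isomorphic to the residual of `W` at every point, or is the trivial design of all the 3-subsets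
of 5 points. -/
theorem result :
    (∃ W : Finset (Finset (Fin 23)), IsDesign 4 23 7 1 W) ∧
      ∀ (Q : Type) [Fintype Q] [DecidableEq Q] (W : Finset (Finset Q)), IsDesign 4 23 7 1 W →
        ∀ (P : Type) [Fintype P] [DecidableEq P] (v k lam y : ℕ) (𝓑 : Finset (Finset P)),
          3 ≤ k → k < v → 1 < y → IsDesign 3 v k lam 𝓑 → interNumbers 𝓑 = {1, y} →
            Isomorphic 𝓑 W ∨ (∀ p : Q, Isomorphic 𝓑 (residual W p)) ∨
              (k = 3 ∧ v = 5 ∧ 𝓑 = (univ : Finset P).powersetCard 3) :=
  ⟨⟨W0, W0_design⟩, fun _ _ _ _ hW _ _ _ _ _ _ _ _ hk hv hy hD hI => classify hk hv hy hD hI hW⟩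

end Pool.Agent.Results.MP_096921_co.Classification
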